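import Pool.Agent.P.MP_9167e9_an.Core.St

/-!
CORE, step 4: Cheeger's inequality on the bipartite double.
-/

noncomputable section
open scoped Classical

namespace Pool.Agent.P.MP_9167e9_an.Core

namespace Cheeger

variable {X E : Type} [Fintype X] [Fintype E] {a b : E → X} {c k : ℝ}

/-- The indicator function of a finite set. -/
def ind (U : Finset X) (x : X) : ℝ := if x ∈ U then 1 else 0

/-- Edge expansion. -/
def Ex (a b : E → X) (c : ℝ) : Prop :=
  ∀ U : Finset X, 2 * U.card ≤ Fintype.card X → c * U.card ≤ ∑ e, |ind U (a e) - ind U (b e)|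

theorem sum_ind (U : Finset X) : ∑ x, ind U x = U.card := by simp [ind]

theorem coarea (h : Ex a b c) (U : Finset X) : 2 * U.card ≤ Fintype.card X → ∀ G : X → ℝ,
    (∀ x, 0 ≤ G x) → (∀ x, x ∉ U → G x = 0) → (∀ x ∈ U, G x ≠ 0) →
    c * ∑ x, G x ≤ ∑ e, |G (a e) - G (b e)| := by
  induction U using Finset.strongInduction with
  | H U ih =>
  intro hU G h0 h1 h2
  rcases U.eq_empty_or_nonempty with rfl | hne
  · rw [Finset.sum_eq_zero fun x _ => h1 x (by simp), mul_zero]
    positivity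
  obtain ⟨x0, hx0, hmin⟩ := U.exists_min_image G hne
  have hm : 0 ≤ G x0 := h0 x0
  have hG : ∀ x, 0 ≤ G x - G x0 * ind U x := fun x => by
    unfold ind
    split_ifs with hx
    · linarith [hmin x hx]
    · linarith [h0 x]
  have hsub : (U.filter fun x => G x - G x0 * ind U x ≠ 0) ⊂ U :=
    Finset.filter_ssubset.2 ⟨x0, hx0, by simp [ind, hx0]⟩
  have k1 := ih _ hsub (by have := Finset.card_le_card hsub.1; omega)
    (fun x => G x - G x0 * ind U x) hG
    (fun x hx => by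
      by_cases hx' : x ∈ U
      · by_contra h3
        exact hx (Finset.mem_filter.2 ⟨hx', h3⟩)
      · simp [ind, hx', h1 x hx'])
    (fun x hx => (Finset.mem_filter.1 hx).2)
  have k2 := mul_le_mul_of_nonneg_left (h U hU) hm
  have k3 : ∀ x y, |G x - G y| = G x0 * |ind U x - ind U y| +
      |G x - G x0 * ind U x - (G y - G x0 * ind U y)| := fun x y => by
    have hx := hG x
    have hy := hG y
    unfold ind at *
    by_cases h3 : x ∈ U <;> by_cases h4 : y ∈ U
    · simp [h3, h4]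
    · simp only [h3, h4, h1 y h4, if_true, if_false, mul_one, mul_zero, sub_zero, abs_one] at hx ⊢
      rw [abs_of_nonneg (h0 x), abs_of_nonneg hx]; ring
    · simp only [h3, h4, h1 x h3, if_true, if_false, mul_one, mul_zero, sub_zero, zero_sub,
        abs_neg, abs_one] at hy ⊢
      rw [abs_of_nonneg (h0 y), abs_of_nonneg hy]; ring
    · simp [h3, h4]
  rw [Finset.sum_congr rfl fun e _ => k3 (a e) (b e), Finset.sum_add_distrib, ← Finset.mul_sum]
  rw [Finset.sum_sub_distrib, ← Finset.mul_sum, sum_ind] at k1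
  linarith

theorem half (h : Ex a b c) (hc : 0 ≤ c) (hk : 0 ≤ k)
    (hd : ∀ f : X → ℝ, ∑ e, (f (a e) + f (b e)) = k * ∑ x, f x) (g : X → ℝ)
    (hg : 2 * (Finset.univ.filter fun x => g x ≠ 0).card ≤ Fintype.card X) :
    c ^ 2 * ∑ x, g x ^ 2 ≤ 2 * k * ∑ e, (g (a e) - g (b e)) ^ 2 := by
  have k1 := coarea h _ hg (fun x => g x ^ 2) (fun x => sq_nonneg _)
    (fun x hx => by simpa using hx) (fun x hx => by simpa using hx)
  have k2 := Finset.sum_sq_le_sum_mul_sum_of_sq_le_mul (Finset.univ : Finset E)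
    (r := fun e => |g (a e) ^ 2 - g (b e) ^ 2|)
    (f := fun e => 2 * (g (a e) ^ 2 + g (b e) ^ 2)) (g := fun e => (g (a e) - g (b e)) ^ 2)
    (fun e _ => by positivity) (fun e _ => sq_nonneg _) (fun e _ => by
      rw [sq_abs]
      nlinarith [sq_nonneg ((g (a e) - g (b e)) ^ 2)])
  rw [← Finset.mul_sum, hd fun x => g x ^ 2] at k2
  have hB : 0 ≤ ∑ x, g x ^ 2 := by positivity
  have hD : 0 ≤ ∑ e, (g (a e) - g (b e)) ^ 2 := by positivity
  have k3 := (pow_le_pow_left₀ (mul_nonneg hc hB) k1 2).trans k2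
  rcases hB.eq_or_lt with h1 | h1
  · rw [← h1, mul_zero]; positivity
  · refine le_of_mul_le_mul_left ?_ h1
    nlinarith

theorem median (f : X → ℝ) :
    ∃ m, 2 * (Finset.univ.filter fun x => m < f x).card ≤ Fintype.card X ∧
      2 * (Finset.univ.filter fun x => f x < m).card ≤ Fintype.card X := by
  rcases isEmpty_or_nonempty X with hn | hn
  · exact ⟨0, by simp, by simp⟩
  obtain ⟨x0, -, h0⟩ := Finset.exists_max_image Finset.univ f Finset.univ_nonempty
  obtain ⟨x1, h1, hmin⟩ := Finset.exists_min_image (Finset.univ.filter fun y =>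
      2 * (Finset.univ.filter fun x => f y < f x).card ≤ Fintype.card X) f
    ⟨x0, Finset.mem_filter.2 ⟨Finset.mem_univ _, by
      rw [Finset.filter_eq_empty_iff.2 fun x hx => not_lt.2 (h0 x hx)]; simp⟩⟩
  refine ⟨f x1, (Finset.mem_filter.1 h1).2, ?_⟩
  rcases (Finset.univ.filter fun x => f x < f x1).eq_empty_or_nonempty with h | h
  · rw [h]; simp
  obtain ⟨x2, h2, hmax⟩ := Finset.exists_max_image _ f h
  have h3 : ¬ 2 * (Finset.univ.filter fun x => f x2 < f x).card ≤ Fintype.card X := fun h4 =>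
    absurd (hmin x2 (Finset.mem_filter.2 ⟨Finset.mem_univ _, h4⟩))
      (not_le.2 (Finset.mem_filter.1 h2).2)
  have h4 : Disjoint (Finset.univ.filter fun x => f x < f x1)
      (Finset.univ.filter fun x => f x2 < f x) :=
    Finset.disjoint_left.2 fun x hx hx' =>
      absurd (hmax x hx) (not_le.2 (Finset.mem_filter.1 hx').2)
  have h5 := Finset.card_le_univ
    ((Finset.univ.filter fun x => f x < f x1) ∪ (Finset.univ.filter fun x => f x2 < f x))
  rw [Finset.card_union_of_disjoint h4] at h5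
  omega

theorem pos_neg_sq (x : ℝ) : max x 0 ^ 2 + max (-x) 0 ^ 2 = x ^ 2 := by
  rcases le_total x 0 with h | h
  · rw [max_eq_right h, max_eq_left (neg_nonneg.mpr h)]; ring
  · rw [max_eq_left h, max_eq_right (neg_nonpos.mpr h)]; ring

theorem pos_neg_sub_sq (x y : ℝ) :
    (max x 0 - max y 0) ^ 2 + (max (-x) 0 - max (-y) 0) ^ 2 ≤ (x - y) ^ 2 := by
  rcases le_total x 0 with h | h <;> rcases le_total y 0 with h' | h'
  · rw [max_eq_right h, max_eq_left (neg_nonneg.mpr h), max_eq_right h',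
      max_eq_left (neg_nonneg.mpr h')]; nlinarith
  · rw [max_eq_right h, max_eq_left (neg_nonneg.mpr h), max_eq_left h',
      max_eq_right (neg_nonpos.mpr h')]; nlinarith [mul_nonneg (neg_nonneg.mpr h) h']
  · rw [max_eq_left h, max_eq_right (neg_nonpos.mpr h), max_eq_right h',
      max_eq_left (neg_nonneg.mpr h')]; nlinarith [mul_nonneg (neg_nonneg.mpr h') h]
  · rw [max_eq_left h, max_eq_right (neg_nonpos.mpr h), max_eq_left h',
      max_eq_right (neg_nonpos.mpr h')]; nlinarith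

theorem full (h : Ex a b c) (hc : 0 ≤ c) (hk : 0 ≤ k)
    (hd : ∀ f : X → ℝ, ∑ e, (f (a e) + f (b e)) = k * ∑ x, f x) (f : X → ℝ)
    (hf : ∑ x, f x = 0) : c ^ 2 * ∑ x, f x ^ 2 ≤ 2 * k * ∑ e, (f (a e) - f (b e)) ^ 2 := by
  obtain ⟨m, h1, h2⟩ := median f
  have k1 := half h hc hk hd (fun x => max (f x - m) 0) (le_trans (Nat.mul_le_mul_left 2
    (Finset.card_le_card fun x hx => by
      simp only [Finset.mem_filter, Finset.mem_univ, true_and] at hx ⊢
      by_contra h3
      exact hx (max_eq_right (by linarith [not_lt.1 h3])))) h1)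
  have k2 := half h hc hk hd (fun x => max (-(f x - m)) 0) (le_trans (Nat.mul_le_mul_left 2
    (Finset.card_le_card fun x hx => by
      simp only [Finset.mem_filter, Finset.mem_univ, true_and] at hx ⊢
      by_contra h3
      exact hx (max_eq_right (by linarith [not_lt.1 h3])))) h2)
  have e1 : ∑ x, f x ^ 2 ≤ ∑ x, max (f x - m) 0 ^ 2 + ∑ x, max (-(f x - m)) 0 ^ 2 := by
    rw [← Finset.sum_add_distrib, Finset.sum_congr rfl fun x _ => pos_neg_sq (f x - m)]
    have h3 : ∑ x, f x ^ 2 = ∑ x, (f x ^ 2 - 2 * m * f x) := by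
      rw [Finset.sum_sub_distrib, ← Finset.mul_sum, hf, mul_zero, sub_zero]
    rw [h3]
    exact Finset.sum_le_sum fun x _ => by nlinarith [sq_nonneg m]
  have e2 : ∑ e, (max (f (a e) - m) 0 - max (f (b e) - m) 0) ^ 2 +
      ∑ e, (max (-(f (a e) - m)) 0 - max (-(f (b e) - m)) 0) ^ 2 ≤
      ∑ e, (f (a e) - f (b e)) ^ 2 := by
    rw [← Finset.sum_add_distrib]
    refine Finset.sum_le_sum fun e _ => (pos_neg_sub_sq _ _).trans (le_of_eq ?_)
    ring
  have e3 := mul_le_mul_of_nonneg_left e1 (sq_nonneg c)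
  have e4 := mul_le_mul_of_nonneg_left e2 (show 0 ≤ 2 * k by positivity)
  linarith

variable {j : ℕ} {V : Type} [Fintype V] (τ : Fin j → Equiv.Perm V)

/-- The tail of an edge of the bipartite double. -/
def tl (e : Fin j × V) : V ⊕ V := Sum.inl e.2

/-- The head of an edge of the bipartite double. -/
def hd (e : Fin j × V) : V ⊕ V := Sum.inr (τ e.1 e.2)

theorem deg (f : V ⊕ V → ℝ) : ∑ e, (f (tl (j := j) e) + f (hd τ e)) = j * ∑ x, f x := by
  have h : ∀ i, ∑ v, f (Sum.inr (τ i v)) = ∑ v, f (Sum.inr v) := fun i =>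
    Equiv.sum_comp (τ i) fun v => f (Sum.inr v)
  simp [Fintype.sum_prod_type, tl, hd, Finset.sum_add_distrib, h, mul_add]

theorem ex (h : Xp τ 491 1000) : Ex (tl (j := j)) (hd τ) (18 / 1000 * j) := by
  intro U hU
  have h1 : U.toLeft.card + U.toRight.card = U.card := Finset.card_toLeft_add_card_toRight
  have h2 := h U.toLeft U.toRight (by rw [Fintype.card_sum] at hU; omega)
  rw [h1] at h2
  have h3 : (1000 : ℝ) * ed τ U.toLeft U.toRight ≤ 491 * (j * U.card) := by exact_mod_cast h2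
  have h4 : ∀ x y, |ind U x - ind U y| = ind U x + ind U y - 2 * (ind U x * ind U y) := by
    intro x y
    unfold ind
    split_ifs <;> norm_num
  have h5 : ∑ e, ind U (tl (j := j) e) * ind U (hd τ e) = ed τ U.toLeft U.toRight := by
    rw [Fintype.sum_prod_type, ed, Nat.cast_sum]
    refine Finset.sum_congr rfl fun i _ => ?_
    rw [← sum_ind]
    refine Finset.sum_congr rfl fun v _ => ?_
    simp only [ind, tl, hd, Finset.mem_filter, Finset.mem_toLeft, Finset.mem_toRight]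
    by_cases h6 : Sum.inl v ∈ U <;> by_cases h7 : Sum.inr (τ i v) ∈ U <;> simp [h6, h7]
  rw [Finset.sum_congr rfl fun e _ => h4 _ _, Finset.sum_sub_distrib, deg τ (ind U), sum_ind,
    ← Finset.mul_sum, h5]
  linarith

end Cheeger

open Cheeger in
theorem pCheeger : StCheeger := by
  intro j V _ τ hj h ξ hξ
  have hj' : (0 : ℝ) < j := by exact_mod_cast hj
  obtain ⟨η, hη⟩ : ∃ η : V → ℝ, η = fun w => (∑ i, ξ ((τ i)⁻¹ w)) / j := ⟨_, rfl⟩
  have h0 : ∀ w, ∑ i, ξ ((τ i)⁻¹ w) = j * η w := fun w => by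
    rw [hη]; field_simp
  have h1 : ∑ w, η w = 0 := by
    have h2 : ∀ i, ∑ w, ξ ((τ i)⁻¹ w) = 0 := fun i => (Equiv.sum_comp (τ i)⁻¹ ξ).trans hξ
    simp only [hη, ← Finset.sum_div]
    rw [Finset.sum_comm, Finset.sum_eq_zero fun i _ => h2 i, zero_div]
  have k := full (ex τ h) (by positivity) hj'.le (deg τ) (Sum.elim ξ η) (by simp [hξ, h1])
  have h3 : ∑ e : Fin j × V, ξ e.2 * η (τ e.1 e.2) = j * ∑ w, η w ^ 2 := by
    have h4 : ∀ i, ∑ v, ξ v * η (τ i v) = ∑ w, ξ ((τ i)⁻¹ w) * η w := fun i => by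
      rw [← Equiv.sum_comp (τ i) fun w => ξ ((τ i)⁻¹ w) * η w]
      simp
    rw [Fintype.sum_prod_type, Finset.sum_congr rfl fun i _ => h4 i, Finset.sum_comm,
      Finset.mul_sum]
    refine Finset.sum_congr rfl fun w _ => ?_
    rw [← Finset.sum_mul, h0]; ring
  have h5 := deg τ fun x => Sum.elim ξ η x ^ 2
  have h6 : ∑ e, (Sum.elim ξ η (tl (j := j) e) - Sum.elim ξ η (hd τ e)) ^ 2 =
      ∑ e, (Sum.elim ξ η (tl (j := j) e) ^ 2 + Sum.elim ξ η (hd τ e) ^ 2) -
        2 * ∑ e : Fin j × V, ξ e.2 * η (τ e.1 e.2) := by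
    rw [Finset.mul_sum, ← Finset.sum_sub_distrib]
    refine Finset.sum_congr rfl fun e _ => ?_
    simp only [tl, hd, Sum.elim_inl, Sum.elim_inr]
    ring
  rw [h6, h5, h3, Fintype.sum_sum_type] at k
  simp only [Sum.elim_inl, Sum.elim_inr] at k
  have h7 : ∑ v, ((∑ i, ξ ((τ i)⁻¹ v)) / j) ^ 2 = ∑ w, η w ^ 2 := by rw [hη]
  rw [h7]
  have hA : 0 ≤ ∑ w, ξ w ^ 2 := by positivity
  have hB : 0 ≤ ∑ w, η w ^ 2 := by positivity
  have h8 : (18 / 1000 : ℝ) ^ 2 * (∑ w, ξ w ^ 2 + ∑ w, η w ^ 2) ≤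
      2 * (∑ w, ξ w ^ 2 - ∑ w, η w ^ 2) := by
    refine le_of_mul_le_mul_left ?_ (mul_pos hj' hj')
    linarith
  norm_num at h8 ⊢
  linarith

end Pool.Agent.P.MP_9167e9_an.Core
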