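import Pool.Agent.P.MP_9167e9_an.Core.St

/-!
CORE: most tuples of permutations expand.
-/

noncomputable section
open scoped Classical
open Finset

namespace Pool.Agent.P.MP_9167e9_an.Core

namespace Exp

variable {V : Type} [Fintype V]

/-- permutations that map `A` into `T` -/
def E (T A : Finset V) : Finset (Equiv.Perm V) := univ.filter fun s => ∀ x ∈ A, s x ∈ T

theorem card_pre (s : Equiv.Perm V) (T : Finset V) :
    (univ.filter fun w => s w ∈ T).card = T.card := by
  refine card_bij (fun w _ => s w) (fun w hw => (mem_filter.mp hw).2)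
    (fun _ _ _ _ h => s.injective h) fun y hy => ⟨s.symm y, by simpa using hy, by simp⟩

theorem swap_card (T A : Finset V) {x w : V} (hx : x ∉ A) (hw : w ∉ A) :
    ((E T A).filter fun s => s w ∈ T).card = (E T (insert x A)).card := by
  have hy : ∀ y ∈ A, Equiv.swap x w y = y := fun y hy =>
    Equiv.swap_apply_of_ne_of_ne (fun h => hx (h ▸ hy)) fun h => hw (h ▸ hy)
  refine card_bij' (fun s _ => s * Equiv.swap x w) (fun s _ => s * Equiv.swap x w) ?_ ?_ ?_ ?_
  · intro s hs
    simp only [E, mem_filter, mem_univ, true_and, forall_mem_insert, Equiv.Perm.mul_apply,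
      Equiv.swap_apply_left] at hs ⊢
    exact ⟨hs.2, fun y h => by rw [hy y h]; exact hs.1 y h⟩
  · intro s hs
    simp only [E, mem_filter, mem_univ, true_and, forall_mem_insert, Equiv.Perm.mul_apply,
      Equiv.swap_apply_right] at hs ⊢
    exact ⟨fun y h => by rw [hy y h]; exact hs.2 y h, hs.1⟩
  · intro s _
    simp [mul_assoc]
  · intro s _
    simp [mul_assoc]

theorem step_eq (T A : Finset V) {x : V} (hx : x ∉ A) :
    (Fintype.card V - A.card) * (E T (insert x A)).card = (T.card - A.card) * (E T A).card := by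
  have h1 : ∑ w ∈ Aᶜ, ((E T A).filter fun s => s w ∈ T).card =
      ∑ s ∈ E T A, (Aᶜ.filter fun w => s w ∈ T).card := by
    simp only [card_filter]
    exact sum_comm
  rw [sum_congr rfl fun w hw => swap_card T A hx (mem_compl.mp hw), sum_const, card_compl,
    smul_eq_mul] at h1
  rw [h1, mul_comm, ← smul_eq_mul, ← sum_const]
  refine sum_congr rfl fun s hs => ?_
  have h2 : A ⊆ univ.filter fun w => s w ∈ T := fun y hy => by
    simpa using (mem_filter.mp hs).2 y hy
  rw [← card_pre s T, ← card_sdiff_of_subset h2]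
  congr 1
  ext y
  simp [and_comm]

theorem step_le (T A : Finset V) {x : V} (hx : x ∉ A) :
    Fintype.card V * (E T (insert x A)).card ≤ T.card * (E T A).card := by
  have h1 := step_eq T A hx
  have ha : A.card < Fintype.card V := by
    have := card_le_univ (insert x A)
    rw [card_insert_of_notMem hx] at this
    omega
  have ht : T.card ≤ Fintype.card V := card_le_univ T
  generalize (E T (insert x A)).card = e' at *
  generalize (E T A).card = e at *
  generalize A.card = a at *
  generalize T.card = t at *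
  generalize Fintype.card V = N at *
  have h2 : N * (t - a) ≤ (N - a) * t := by
    rw [Nat.mul_sub, Nat.sub_mul]
    exact Nat.sub_le_sub_left (by rw [mul_comm]; exact Nat.mul_le_mul_right a ht) _
  refine Nat.le_of_mul_le_mul_left ?_ (Nat.sub_pos_of_lt ha)
  calc (N - a) * (N * e') = N * ((N - a) * e') := by ring
    _ = N * (t - a) * e := by rw [h1]; ring
    _ ≤ (N - a) * t * e := Nat.mul_le_mul_right e h2
    _ = _ := by ring

theorem card_E (T A : Finset V) (hN : 0 < Fintype.card V) :
    ((E T A).card : ℝ) ≤ (Fintype.card (Equiv.Perm V) : ℝ) *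
      ((T.card : ℝ) / Fintype.card V) ^ A.card := by
  have hN' : (0 : ℝ) < Fintype.card V := by exact_mod_cast hN
  induction A using Finset.induction_on with
  | empty => simp [E]
  | insert x A hx ih =>
    have h1 : (Fintype.card V : ℝ) * (E T (insert x A)).card ≤ T.card * (E T A).card := by
      exact_mod_cast step_le T A hx
    rw [card_insert_of_notMem hx, pow_succ, ← mul_assoc]
    calc ((E T (insert x A)).card : ℝ) ≤ (E T A).card * (T.card / Fintype.card V) := by
          rw [← mul_div_assoc, le_div_iff₀ hN']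
          linarith
      _ ≤ _ := by gcongr

theorem moment_one (S T : Finset V) (hN : 0 < Fintype.card V) {y : ℝ} (hy : 0 ≤ y) :
    ∑ s : Equiv.Perm V, (1 + y) ^ (S.filter fun v => s v ∈ T).card ≤
      (Fintype.card (Equiv.Perm V) : ℝ) * (1 + y * ((T.card : ℝ) / Fintype.card V)) ^ S.card := by
  have h1 : ∀ s : Equiv.Perm V, (1 + y) ^ (S.filter fun v => s v ∈ T).card =
      ∑ A ∈ S.powerset, if ∀ x ∈ A, s x ∈ T then y ^ A.card else 0 := fun s => by
    have h2 : (1 + y) ^ (S.filter fun v => s v ∈ T).card =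
        ∏ v ∈ S, (1 + if s v ∈ T then y else 0) := by
      rw [← prod_const, prod_filter]
      exact prod_congr rfl fun v _ => by split_ifs <;> simp
    rw [h2, prod_one_add]
    refine sum_congr rfl fun A _ => ?_
    rw [prod_ite_zero, prod_const]
    congr
  simp only [h1]
  rw [sum_comm, ← prod_const, prod_one_add, mul_sum]
  refine sum_le_sum fun A _ => ?_
  rw [← sum_filter, sum_const, nsmul_eq_mul, prod_const, mul_pow, mul_comm (y ^ A.card),
    ← mul_assoc]
  have := card_E T A hN
  unfold E at this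
  gcongr

theorem moment (j : ℕ) (S T : Finset V) (hN : 0 < Fintype.card V) {y : ℝ} (hy : 0 ≤ y) :
    ∑ τ : Fin j → Equiv.Perm V, (1 + y) ^ ed τ S T ≤
      (Fintype.card (Fin j → Equiv.Perm V) : ℝ) *
        (1 + y * ((T.card : ℝ) / Fintype.card V)) ^ (j * S.card) := by
  have h1 := prod_univ_sum (fun _ : Fin j => (univ : Finset (Equiv.Perm V)))
    fun _ s => (1 + y) ^ (S.filter fun v => s v ∈ T).card
  rw [Fintype.piFinset_univ] at h1
  simp only [ed, ← prod_pow_eq_pow_sum]
  rw [← h1, prod_const, card_univ, Fintype.card_fun, Fintype.card_fin, Nat.cast_pow, mul_comm j,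
    pow_mul, ← mul_pow]
  exact pow_le_pow_left₀ (sum_nonneg fun _ _ => by positivity) (moment_one S T hN hy) j

omit [Fintype V] in
theorem ed_le_left {j : ℕ} (τ : Fin j → Equiv.Perm V) (S T : Finset V) :
    ed τ S T ≤ j * S.card := by
  refine (sum_le_card_nsmul _ _ S.card fun i _ => card_filter_le _ _).trans ?_
  simp

theorem ed_le_right {j : ℕ} (τ : Fin j → Equiv.Perm V) (S T : Finset V) :
    ed τ S T ≤ j * T.card := by
  refine (sum_le_card_nsmul _ _ T.card fun i _ => ?_).trans (by simp)
  rw [← card_pre (τ i) T]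
  exact card_le_card (filter_subset_filter _ (subset_univ S))

/-- the tuples that violate expansion at `S`, `T` -/
def B (j : ℕ) (S T : Finset V) : Finset (Fin j → Equiv.Perm V) :=
  univ.filter fun τ => 49 * (j * (S.card + T.card)) < 100 * ed τ S T

theorem pow_ineq {j s k e : ℕ} {z : ℝ} (hz : 32 ≤ z) (hj : 100 ≤ j) (hs : 100 * s ≤ 51 * k)
    (he : 49 * (j * k) ≤ 100 * e) : 18 ^ (j * s) * z ^ k ≤ z ^ e := by
  have hz1 : 1 ≤ z := by linarith
  refine le_of_pow_le_pow_left₀ (n := 100) (by norm_num) (by positivity) ?_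
  rw [mul_pow, ← pow_mul, ← pow_mul, ← pow_mul]
  have h1 : (18 : ℝ) ^ (j * s * 100) ≤ z ^ (48 * (j * k)) :=
    calc (18 : ℝ) ^ (j * s * 100) ≤ 18 ^ (51 * (j * k)) :=
          pow_le_pow_right₀ (by norm_num) (by nlinarith)
      _ = (18 ^ 51) ^ (j * k) := pow_mul _ _ _
      _ ≤ (32 ^ 48) ^ (j * k) := pow_le_pow_left₀ (by positivity) (by norm_num) _
      _ ≤ (z ^ 48) ^ (j * k) := by gcongr
      _ = _ := (pow_mul _ _ _).symm
  have h2 : z ^ (k * 100) ≤ z ^ (j * k) := pow_le_pow_right₀ hz1 (by nlinarith)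
  calc (18 : ℝ) ^ (j * s * 100) * z ^ (k * 100) ≤ z ^ (48 * (j * k)) * z ^ (j * k) := by gcongr
    _ = z ^ (49 * (j * k)) := by rw [← pow_add]; congr 1; ring
    _ ≤ _ := pow_le_pow_right₀ hz1 (by omega)

theorem card_B {j k : ℕ} (hj : 100 ≤ j) (S T : Finset V) (hk : S.card + T.card = k) (h0 : 0 < k)
    (hN : k ≤ Fintype.card V) : ((B j S T).card : ℝ) ≤
      (Fintype.card (Fin j → Equiv.Perm V) : ℝ) * ((k : ℝ) / (32 * Fintype.card V)) ^ k := by
  rcases (B j S T).eq_empty_or_nonempty with h | ⟨τ₀, h⟩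
  · rw [h, card_empty, Nat.cast_zero]
    positivity
  have h1 := (mem_filter.mp h).2
  have h2 := ed_le_left τ₀ S T
  have h3 := ed_le_right τ₀ S T
  have hs : 49 * k < 100 * S.card := by
    rw [hk] at h1
    refine Nat.lt_of_mul_lt_mul_left (a := j) ?_
    nlinarith
  have ht : 49 * k < 100 * T.card := by
    rw [hk] at h1
    refine Nat.lt_of_mul_lt_mul_left (a := j) ?_
    nlinarith
  have hk' : (0 : ℝ) < k := by exact_mod_cast h0
  have hN' : (k : ℝ) ≤ Fintype.card V := by exact_mod_cast hN
  have hN0 : (0 : ℝ) < Fintype.card V := by linarith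
  have ht' : (100 : ℝ) * T.card ≤ 51 * k := by
    have : 100 * T.card ≤ 51 * k := by omega
    exact_mod_cast this
  set z : ℝ := 32 * Fintype.card V / k with hz
  have hz32 : 32 ≤ z := by
    rw [hz, le_div_iff₀ hk']
    linarith
  have h4 := moment j S T (by omega) (y := z - 1) (by linarith)
  rw [add_sub_cancel] at h4
  have h5 : 1 + (z - 1) * ((T.card : ℝ) / Fintype.card V) ≤ 18 := by
    have h6 : z * ((T.card : ℝ) / Fintype.card V) = 32 * T.card / k := by
      rw [hz]
      field_simp
    have h7 : (32 : ℝ) * T.card / k ≤ 17 := by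
      rw [div_le_iff₀ hk']
      linarith
    have h8 : (0 : ℝ) ≤ (T.card : ℝ) / Fintype.card V := by positivity
    nlinarith
  have h6 : ((B j S T).card : ℝ) * (18 ^ (j * S.card) * z ^ k) ≤
      (Fintype.card (Fin j → Equiv.Perm V) : ℝ) * 18 ^ (j * S.card) :=
    calc ((B j S T).card : ℝ) * (18 ^ (j * S.card) * z ^ k)
        ≤ ∑ τ ∈ B j S T, z ^ ed τ S T := by
          rw [← nsmul_eq_mul]
          refine card_nsmul_le_sum _ _ _ fun τ hτ => pow_ineq hz32 hj (by omega) ?_
          have := (mem_filter.mp hτ).2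
          rw [hk] at this
          omega
      _ ≤ ∑ τ, z ^ ed τ S T :=
          sum_le_sum_of_subset_of_nonneg (subset_univ _) fun _ _ _ => by positivity
      _ ≤ _ := by
          refine h4.trans ?_
          have : 0 ≤ 1 + (z - 1) * ((T.card : ℝ) / Fintype.card V) := by
            have : 0 ≤ z - 1 := by linarith
            positivity
          gcongr
  have h7 : (k : ℝ) / (32 * Fintype.card V) = z⁻¹ := by rw [hz, inv_div]
  rw [h7, inv_pow, ← div_eq_mul_inv, le_div_iff₀ (by positivity)]
  have h8 : (0 : ℝ) < 18 ^ (j * S.card) := by positivity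
  refine le_of_mul_le_mul_right ?_ h8
  linarith

/-- pairs of sets with given total size -/
def Pk (V : Type) [Fintype V] (k : ℕ) : Finset (Finset V × Finset V) :=
  univ.filter fun p => p.1.card + p.2.card = k

theorem card_P (k : ℕ) : (Pk V k).card ≤ (2 * Fintype.card V).choose k := by
  have h : (2 * Fintype.card V).choose k = (powersetCard k (univ : Finset (V ⊕ V))).card := by
    rw [card_powersetCard, card_univ, Fintype.card_sum, two_mul]
  rw [h]
  refine card_le_card_of_injOn (fun p => p.1.disjSum p.2) (fun p hp => ?_) fun p _ q _ e => ?_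
  · simpa [Pk] using hp
  · exact Prod.ext (disjSum_inj.mp e).1 (disjSum_inj.mp e).2

theorem card_P_mul (k : ℕ) (hN : 0 < Fintype.card V) :
    ((Pk V k).card : ℝ) * ((k : ℝ) / (32 * Fintype.card V)) ^ k ≤ (3 / 16) ^ k := by
  have hN' : (0 : ℝ) < Fintype.card V := by exact_mod_cast hN
  have h1 : ((Pk V k).card : ℝ) ≤ (2 * Fintype.card V) ^ k / k.factorial := by
    have := Nat.choose_le_pow_div (α := ℝ) k (2 * Fintype.card V)
    push_cast at this
    exact le_trans (by exact_mod_cast card_P k) this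
  have h2 : (k : ℝ) ^ k / k.factorial ≤ 3 ^ k := by
    refine (Real.pow_div_factorial_le_exp _ (Nat.cast_nonneg k) k).trans ?_
    rw [← mul_one (k : ℝ), Real.exp_nat_mul]
    exact pow_le_pow_left₀ (Real.exp_pos 1).le (by linarith [Real.exp_one_lt_d9]) k
  calc ((Pk V k).card : ℝ) * ((k : ℝ) / (32 * Fintype.card V)) ^ k
      ≤ (2 * Fintype.card V) ^ k / k.factorial * ((k : ℝ) / (32 * Fintype.card V)) ^ k := by
        gcongr
    _ = (k : ℝ) ^ k / k.factorial * (1 / 16) ^ k := by
        rw [div_mul_eq_mul_div, div_mul_eq_mul_div, ← mul_pow, ← mul_pow]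
        congr 2
        field_simp
        ring
    _ ≤ 3 ^ k * (1 / 16) ^ k := by gcongr
    _ = _ := by rw [← mul_pow]; norm_num

theorem geom (n : ℕ) : ∑ k ∈ range n, (3 / 16 : ℝ) ^ (k + 1) = 3 / 13 * (1 - (3 / 16) ^ n) := by
  induction n with
  | zero => simp
  | succ n ih => rw [sum_range_succ, ih]; ring

end Exp

open Exp in
theorem pExp : StExp := fun j V _ hj => by
  have hsub : (univ.filter fun τ : Fin j → Equiv.Perm V => ¬ Xp τ 49 100) ⊆
      (range (Fintype.card V)).biUnion fun k => (Pk V (k + 1)).biUnion fun p => B j p.1 p.2 := by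
    intro τ hτ
    have h := (mem_filter.mp hτ).2
    simp only [Xp, not_forall, not_le] at h
    obtain ⟨S, T, h1, h2⟩ := h
    have h3 := ed_le_left τ S T
    have h4 : 0 < S.card := by
      by_contra h5
      have : S.card = 0 := by omega
      rw [this] at h3
      omega
    refine mem_biUnion.mpr ⟨S.card + T.card - 1, mem_range.mpr (by omega),
      mem_biUnion.mpr ⟨(S, T), ?_, ?_⟩⟩
    · simp only [Pk, mem_filter, mem_univ, true_and]
      omega
    · simpa [B] using h2
  have hΩ : (0 : ℝ) < Fintype.card (Fin j → Equiv.Perm V) := by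
    exact_mod_cast Fintype.card_pos
  have h1 : ((univ.filter fun τ : Fin j → Equiv.Perm V => ¬ Xp τ 49 100).card : ℝ) ≤
      ∑ k ∈ range (Fintype.card V), ∑ p ∈ Pk V (k + 1), ((B j p.1 p.2).card : ℝ) := by
    have := (card_le_card hsub).trans (card_biUnion_le.trans
      (sum_le_sum fun k _ => card_biUnion_le))
    exact_mod_cast this
  have h2 : ∀ k ∈ range (Fintype.card V), ∑ p ∈ Pk V (k + 1), ((B j p.1 p.2).card : ℝ) ≤
      (Fintype.card (Fin j → Equiv.Perm V) : ℝ) * (3 / 16) ^ (k + 1) := fun k hk => by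
    have hk' := mem_range.mp hk
    refine (sum_le_card_nsmul _ _ _ fun p hp =>
      card_B (by omega) p.1 p.2 (mem_filter.mp hp).2 k.succ_pos hk').trans ?_
    rw [nsmul_eq_mul, mul_left_comm]
    exact mul_le_mul_of_nonneg_left (card_P_mul (k + 1) (by omega)) hΩ.le
  have h3 := h1.trans (sum_le_sum h2)
  rw [← mul_sum, geom] at h3
  have h4 : (0 : ℝ) ≤ (3 / 16) ^ Fintype.card V := by positivity
  have h5 : (2 : ℝ) * (univ.filter fun τ : Fin j → Equiv.Perm V => ¬ Xp τ 49 100).card <
      Fintype.card (Fin j → Equiv.Perm V) := by nlinarith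
  exact_mod_cast h5

end Pool.Agent.P.MP_9167e9_an.Core
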