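import Pool.Agent.P.MP_9167e9_an.Core.St

/-!
CORE: the four steps give the statement.
-/

noncomputable section
open scoped Classical

namespace Pool.Agent.P.MP_9167e9_an.Core.Glue

lemma len_wlt {j g : ℕ} {u : List (Lt j)} (h : u ∈ wlt j g) : u.length < g := by
  simp only [wlt, wds, Finset.mem_biUnion, Finset.mem_range, Finset.mem_image, Finset.mem_univ,
    true_and] at h
  obtain ⟨n, hn, f, rfl⟩ := h
  simpa using hn

lemma card_wlt {j : ℕ} (hj : 1 ≤ j) (g : ℕ) : (wlt j g).card ≤ (2 * j) ^ g := by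
  induction g with
  | zero => simp [wlt]
  | succ g ih =>
    have h1 : wlt j (g + 1) = wds j g ∪ wlt j g := by
      simp [wlt, Finset.range_add_one]
    have h2 : (wds j g).card ≤ (2 * j) ^ g := by
      refine Finset.card_image_le.trans ?_
      simp [mul_comm]
    have h3 := Finset.card_union_le (wds j g) (wlt j g)
    rw [h1, pow_succ]
    nlinarith [Nat.zero_le ((2 * j) ^ g)]

lemma sum_Sh (hS : StShort) (j g : ℕ) (V : Type) [Fintype V] (hV : 2 * g ≤ Fintype.card V)
    (hV0 : 0 < Fintype.card V) :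
    ∑ τ : Fin j → Equiv.Perm V, (Sh τ g).card ≤
      2 * ((wlt j g).card * g ^ 2) * Fintype.card (Fin j → Equiv.Perm V) := by
  have h1 : ∑ τ : Fin j → Equiv.Perm V, (Sh τ g).card =
      ∑ p ∈ (Finset.univ : Finset V) ×ˢ wlt j g, (Finset.univ.filter
        fun τ : Fin j → Equiv.Perm V =>
          FreeGroup.IsReduced p.2 ∧ p.2 ≠ [] ∧ go τ p.2 p.1 = p.1).card := by
    simp only [Sh, Finset.card_filter]
    exact Finset.sum_comm
  have h2 : ∀ p ∈ (Finset.univ : Finset V) ×ˢ wlt j g, (Finset.univ.filter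
        fun τ : Fin j → Equiv.Perm V =>
          FreeGroup.IsReduced p.2 ∧ p.2 ≠ [] ∧ go τ p.2 p.1 = p.1).card * Fintype.card V ≤
      2 * g ^ 2 * Fintype.card (Fin j → Equiv.Perm V) := by
    rintro ⟨v, u⟩ hp
    have hl := len_wlt (Finset.mem_product.1 hp).2
    simp only at hl ⊢
    by_cases h : FreeGroup.IsReduced u ∧ u ≠ []
    · have h3 := hS j V u v h.1 h.2
      simp only [h.1, h.2, ne_eq, not_false_eq_true, true_and]
      have h4 : Fintype.card V ≤ 2 * (Fintype.card V - u.length) := by omega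
      have h5 : u.length ^ 2 ≤ g ^ 2 := Nat.pow_le_pow_left hl.le 2
      calc _ ≤ _ := Nat.mul_le_mul_left _ h4
        _ = 2 * (_ * (Fintype.card V - u.length)) := by ring
        _ ≤ 2 * (g ^ 2 * Fintype.card (Fin j → Equiv.Perm V)) :=
          Nat.mul_le_mul_left _ (h3.trans (Nat.mul_le_mul_right _ h5))
        _ = _ := by ring
    · rw [Finset.filter_false_of_mem (fun τ _ h' => h ⟨h'.1, h'.2.1⟩)]
      simp
  refine Nat.le_of_mul_le_mul_right ?_ hV0
  rw [h1, Finset.sum_mul]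
  refine (Finset.sum_le_card_nsmul _ _ _ h2).trans (le_of_eq ?_)
  rw [Finset.card_product, Finset.card_univ, smul_eq_mul]
  ring

lemma exists_good (hE : StExp) (hS : StShort) (j g : ℕ) (V : Type) [Fintype V] (hj : 1000 ≤ j)
    (hV : 2 * g ≤ Fintype.card V) (hV0 : 0 < Fintype.card V) :
    ∃ τ : Fin j → Equiv.Perm V, Xp τ 49 100 ∧ (Sh τ g).card ≤ 4 * ((wlt j g).card * g ^ 2) := by
  by_contra hn
  push Not at hn
  have h1 := hE j V hj
  have h2 := sum_Sh hS j g V hV hV0
  have h3 := Finset.card_filter_add_card_filter_not (s := Finset.univ)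
    (fun τ : Fin j → Equiv.Perm V => Xp τ 49 100)
  rw [Finset.card_univ] at h3
  have h4 := Finset.card_nsmul_le_sum
    (Finset.univ.filter fun τ : Fin j → Equiv.Perm V => Xp τ 49 100) (fun τ => (Sh τ g).card)
    (4 * ((wlt j g).card * g ^ 2) + 1) (fun τ hτ => hn τ (Finset.mem_filter.1 hτ).2)
  have h5 : ∑ τ ∈ Finset.univ.filter fun τ : Fin j → Equiv.Perm V => Xp τ 49 100,
      (Sh τ g).card ≤ ∑ τ : Fin j → Equiv.Perm V, (Sh τ g).card :=
    Finset.sum_le_sum_of_subset (Finset.filter_subset _ _)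
  rw [smul_eq_mul] at h4
  generalize (wlt j g).card * g ^ 2 = M at *
  generalize (Finset.univ.filter fun τ : Fin j → Equiv.Perm V => Xp τ 49 100).card = A at *
  generalize (Finset.univ.filter fun τ : Fin j → Equiv.Perm V => ¬ Xp τ 49 100).card = B at *
  generalize Fintype.card (Fin j → Equiv.Perm V) = C at *
  have h6 : C + 1 ≤ 2 * A := by omega
  nlinarith [Nat.mul_le_mul_right M h6]

theorem glue (hE : StExp) (hS : StShort) (hW : StSwitch) (hC : StCheeger) : StCore := by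
  intro j g hj hg
  have hM : 1000 * g ≤ (2 * j) ^ g := by
    have h1 : g ≤ 2 ^ g := Nat.lt_two_pow_self.le
    have h2 : j ≤ j ^ g := Nat.le_self_pow (by omega) j
    rw [mul_pow, mul_comm (2 ^ g)]
    exact Nat.mul_le_mul (hj.trans h2) h1
  have hN : Fintype.card (Fin ((2 * j) ^ (4 * g))) = ((2 * j) ^ g) ^ 4 := by
    rw [Fintype.card_fin, ← pow_mul, mul_comm g]
  have hw := card_wlt (j := j) (by omega) g
  obtain ⟨M, hMe⟩ : ∃ M, M = (2 * j) ^ g := ⟨_, rfl⟩
  rw [← hMe] at hM hN hw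
  have hM4 : M ≤ M ^ 4 := Nat.le_self_pow (by omega) M
  obtain ⟨τ, hτ, hs⟩ := exists_good hE hS j g (Fin ((2 * j) ^ (4 * g))) hj (by omega) (by omega)
  obtain ⟨τ', hg', he⟩ := hW j g _ τ (by
    rw [hN]
    have h1 : (wlt j g).card * g ^ 2 ≤ M * g ^ 2 := Nat.mul_le_mul_right _ hw
    have h2 : 1 ≤ M * g ^ 2 := Nat.one_le_iff_ne_zero.2 (by
      have : M ≠ 0 := by omega
      have : g ≠ 0 := by omega
      positivity)
    have h3 : (1000 * g) ^ 2 ≤ M ^ 2 := Nat.pow_le_pow_left hM 2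
    have h4 : 0 < M ^ 2 * g ^ 2 := by
      have : 0 < M := by omega
      positivity
    calc _ ≤ 20 * (5 * (M * g ^ 2)) * (2 * M) :=
          Nat.mul_le_mul (Nat.mul_le_mul_left _ (by omega)) (by omega)
      _ < M ^ 2 * (1000 * g) ^ 2 := by nlinarith
      _ ≤ M ^ 2 * M ^ 2 := Nat.mul_le_mul_left _ h3
      _ = M ^ 4 := by ring)
  refine ⟨τ', hg', hC j _ τ' (by omega) fun S T hST => ?_⟩
  have h1 := hτ S T hST
  have h2 := he S T
  have h3 := Nat.mul_le_mul_right (S.card + T.card) hj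
  omega

end Pool.Agent.P.MP_9167e9_an.Core.Glue
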