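import Pool.Agent.P.MP_9167e9_an.Core.St

/-!
A reduced word rarely fixes a given point.
-/

noncomputable section
open scoped Classical

namespace Pool.Agent.P.MP_9167e9_an.Core

namespace Short

open Equiv

variable {j : ℕ} {V : Type}

/-- One step. -/
def stp (τ : Fin j → Perm V) (l : Lt j) : Perm V := if l.2 then τ l.1 else (τ l.1)⁻¹

/-- The step `l` is multiplied by `s`. -/
def md (τ : Fin j → Perm V) (l : Lt j) (s : Perm V) : Fin j → Perm V :=
  Function.update τ l.1 (if l.2 then s * τ l.1 else τ l.1 * s⁻¹)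

/-- The positions of the walk are distinct. -/
def Inj (τ : Fin j → Perm V) (u : List (Lt j)) (v : V) : Prop :=
  ∀ w, w <:+ u → ∀ w', w' <:+ u → go τ w v = go τ w' v → w = w'

/-- The positions of the walk. -/
def Ps (τ : Fin j → Perm V) (u : List (Lt j)) (v : V) : Finset V :=
  u.tails.toFinset.image fun w => go τ w v

variable {τ : Fin j → Perm V} {l l' : Lt j} {u : List (Lt j)} {v : V} {s : Perm V}

theorem go_cons : go τ (l :: u) v = stp τ l (go τ u v) := by
  obtain ⟨i, b⟩ := l
  cases b <;> rfl

theorem stp_md : stp (md τ l s) l = s * stp τ l := by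
  obtain ⟨i, b⟩ := l
  cases b <;> simp [stp, md]

theorem stp_inv : stp τ (l.1, !l.2) = (stp τ l)⁻¹ := by
  obtain ⟨i, b⟩ := l
  cases b <;> simp [stp]

theorem stp_md_ne (h : l'.1 ≠ l.1) : stp (md τ l s) l' = stp τ l' := by
  simp [stp, md, h]

theorem md_md (a b : V) : md (md τ l (swap a b)) l (swap a b) = τ := by
  obtain ⟨i, b⟩ := l
  cases b <;> simp [md, mul_assoc]

theorem mem_P {c : V} : c ∈ Ps τ u v ↔ ∃ w, w <:+ u ∧ go τ w v = c := by
  simp [Ps]

theorem card_P : (Ps τ u v).card ≤ u.length + 1 :=
  Finset.card_image_le.trans ((List.toFinset_card_le _).trans (List.length_tails _).le)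

theorem inj_cons (h : Inj τ u v) (h' : go τ (l :: u) v ∉ Ps τ u v) : Inj τ (l :: u) v := by
  intro w hw w' hw' e
  rcases List.suffix_cons_iff.1 hw with rfl | hw <;> rcases List.suffix_cons_iff.1 hw' with rfl | hw'
  · rfl
  · exact absurd (mem_P.2 ⟨w', hw', e.symm⟩) h'
  · exact absurd (mem_P.2 ⟨w, hw, e⟩) h'
  · exact h w hw w' hw' e

theorem key (hr : FreeGroup.IsReduced (l :: u)) (h : Inj τ u v) {z : V} (hz : z ∉ Ps τ u v) :
    ∀ w, w <:+ u → go (md τ l (swap (go τ (l :: u) v) z)) w v = go τ w v := by
  intro w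
  induction w with
  | nil => exact fun _ => rfl
  | cons l' w ih =>
    intro hw
    have hw' : w <:+ u := (List.suffix_cons l' w).trans hw
    rw [go_cons (l := l'), go_cons (l := l'), ih hw']
    by_cases e : l'.1 = l.1
    · by_cases e' : l'.2 = l.2
      · obtain rfl : l' = l := Prod.ext e e'
        rw [stp_md, Perm.mul_apply, swap_apply_of_ne_of_ne]
        · intro h1
          rw [go_cons] at h1
          have h2 := h w hw' u List.suffix_rfl ((stp τ l').injective h1)
          have h3 := hw.length_le
          rw [List.length_cons, h2] at h3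
          omega
        · exact fun h1 => hz (mem_P.2 ⟨_, hw, go_cons.trans h1⟩)
      · obtain rfl : l' = (l.1, !l.2) := Prod.ext e (Bool.eq_not_iff.2 e')
        rw [stp_inv, stp_md, mul_inv_rev, Perm.mul_apply, swap_inv, swap_apply_of_ne_of_ne, stp_inv]
        · intro h1
          have h2 := h _ hw u List.suffix_rfl (by
            rw [go_cons, h1, go_cons, stp_inv]
            exact (stp τ l).symm_apply_apply _)
          rw [← h2] at hr
          exact e' (FreeGroup.isReduced_cons_cons.1 hr |>.1 rfl).symm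
        · exact fun h1 => hz (mem_P.2 ⟨_, hw', h1⟩)
    · rw [stp_md_ne e]

theorem key_go (hr : FreeGroup.IsReduced (l :: u)) (h : Inj τ u v) {z : V} (hz : z ∉ Ps τ u v) :
    go (md τ l (swap (go τ (l :: u) v) z)) (l :: u) v = z := by
  rw [go_cons (τ := md _ _ _), key hr h hz u List.suffix_rfl, stp_md, Perm.mul_apply, ← go_cons,
    swap_apply_left]

variable [Fintype V]

theorem step (hr : FreeGroup.IsReduced (l :: u)) :
    (Finset.univ.filter fun τ : Fin j → Perm V => Inj τ u v ∧ go τ (l :: u) v ∈ Ps τ u v).card *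
      (Fintype.card V - (u.length + 1)) ≤ Fintype.card (Fin j → Perm V) * (u.length + 1) := by
  refine Finset.card_mul_le_card_mul (t := Finset.univ)
    (fun τ τ' => ∃ z, z ∉ Ps τ u v ∧ md τ l (swap (go τ (l :: u) v) z) = τ') (fun τ hτ => ?_)
    fun τ' _ => ?_
  · have h := (Finset.mem_filter.1 hτ).2.1
    refine le_trans (b := (Ps τ u v)ᶜ.card) ?_ (Finset.card_le_card_of_injOn
      (fun z => md τ l (swap (go τ (l :: u) v) z)) (fun z hz => ?_) fun z hz z' hz' e => ?_)
    · rw [Finset.card_compl]
      exact Nat.sub_le_sub_left card_P _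
    · exact Finset.mem_coe.2 ((Finset.mem_bipartiteAbove _).2
        ⟨Finset.mem_univ _, z, Finset.mem_compl.1 hz, rfl⟩)
    · rw [← key_go hr h (Finset.mem_compl.1 hz), ← key_go hr h (Finset.mem_compl.1 hz')]
      exact congrArg (fun τ' => go τ' (l :: u) v) e
  · refine le_trans (Finset.card_le_card (t := (Ps τ' u v).image
      fun c => md τ' l (swap c (go τ' (l :: u) v))) fun τ hτ => ?_)
      (Finset.card_image_le.trans card_P)
    obtain ⟨h1, z, hz, rfl⟩ := (Finset.mem_bipartiteBelow _).1 hτ
    obtain ⟨h, h2⟩ := (Finset.mem_filter.1 h1).2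
    refine Finset.mem_image.2 ⟨go τ (l :: u) v, ?_, by rw [key_go hr h hz, md_md]⟩
    obtain ⟨w, hw, e⟩ := mem_P.1 h2
    exact mem_P.2 ⟨w, hw, (key hr h hz w hw).trans e⟩

theorem main (v : V) (u : List (Lt j)) : FreeGroup.IsReduced u →
    (Finset.univ.filter fun τ : Fin j → Perm V => ¬ Inj τ u v).card *
      (Fintype.card V - u.length) ≤ u.length ^ 2 * Fintype.card (Fin j → Perm V) := by
  induction u with
  | nil =>
    intro _
    rw [Finset.filter_false_of_mem fun τ _ h => h fun w hw w' hw' _ =>
      (List.suffix_nil.1 hw).trans (List.suffix_nil.1 hw').symm]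
    simp
  | cons l u ih =>
    intro hr
    have h1 := ih (List.IsChain.tail hr)
    have h2 := step (v := v) hr
    have h3 : (Finset.univ.filter fun τ : Fin j → Perm V => ¬ Inj τ (l :: u) v).card ≤
        (Finset.univ.filter fun τ : Fin j → Perm V => ¬ Inj τ u v).card +
        (Finset.univ.filter fun τ : Fin j → Perm V =>
          Inj τ u v ∧ go τ (l :: u) v ∈ Ps τ u v).card := by
      refine le_trans (Finset.card_le_card fun τ hτ => ?_) (Finset.card_union_le _ _)
      simp only [Finset.mem_union, Finset.mem_filter, Finset.mem_univ, true_and] at hτ ⊢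
      by_contra h
      push Not at h
      exact hτ (inj_cons h.1 (h.2 h.1))
    have h4 := Nat.mul_le_mul_left
      (Finset.univ.filter fun τ : Fin j → Perm V => ¬ Inj τ u v).card
      (Nat.sub_le_sub_left (Nat.le_succ u.length) (Fintype.card V))
    rw [List.length_cons]
    refine (Nat.mul_le_mul_right _ h3).trans ?_
    rw [add_mul]
    refine (Nat.add_le_add (h4.trans h1) h2).trans ?_
    nlinarith

end Short

theorem pShort : StShort := by
  intro j V _ u v hr hu
  refine le_trans (Nat.mul_le_mul_right _ (Finset.card_le_card fun τ hτ => ?_)) (Short.main v u hr)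
  simp only [Finset.mem_filter, Finset.mem_univ, true_and] at hτ ⊢
  exact fun h => hu (h u List.suffix_rfl [] List.nil_suffix hτ)

end Pool.Agent.P.MP_9167e9_an.Core
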