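import Pool.Agent.P.MP_9167e9_an.Core.SwA

/-!
CORE, switching: all short closed walks are removed one by one.
-/

noncomputable section
open scoped Classical

namespace Pool.Agent.P.MP_9167e9_an.Core

open FreeGroup (IsReduced)

variable {j : ℕ} {V : Type}

lemma mem_wds {n : ℕ} {u : List (Lt j)} : u ∈ wds j n ↔ u.length = n := by
  simp only [wds, Finset.mem_image, Finset.mem_univ, true_and]
  constructor
  · rintro ⟨f, rfl⟩; simp
  · rintro rfl; exact ⟨u.get, List.ofFn_get u⟩

lemma mem_wlt {g : ℕ} {u : List (Lt j)} : u ∈ wlt j g ↔ u.length < g := by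
  simp [wlt, mem_wds]

namespace Sw

lemma go_invRev (τ : Fin j → Equiv.Perm V) (w : List (Lt j)) (x : V) :
    go τ (FreeGroup.invRev w) (go τ w x) = x := by
  induction w with
  | nil => rfl
  | cons l w ih =>
    rw [FreeGroup.invRev_cons, go_append, go_cons]
    have : go τ (FreeGroup.invRev [l]) (st τ l (go τ w x)) = go τ w x := st_st τ l.1 l.2 _
    rw [this, ih]

variable [Fintype V]

/-- The short closed cyclically reduced walks. -/
def Bad (τ : Fin j → Equiv.Perm V) (g : ℕ) : Finset (V × List (Lt j)) :=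
  (Sh τ g).filter fun p => CR p.2

lemma mem_Bad {τ : Fin j → Equiv.Perm V} {g : ℕ} {v : V} {u : List (Lt j)} :
    (v, u) ∈ Bad τ g ↔ u.length < g ∧ CR u ∧ u ≠ [] ∧ go τ u v = v := by
  simp only [Bad, Sh, Finset.mem_filter, Finset.mem_product, Finset.mem_univ, true_and, mem_wlt]
  exact ⟨fun h => ⟨h.1.1, h.2, h.1.2.2⟩, fun h => ⟨⟨h.1, h.2.1.red, h.2.2⟩, h.2.1⟩⟩

lemma exists_far (τ : Fin j → Equiv.Perm V) (g : ℕ) (i : Fin j) (a : V) (F : Finset V)
    (h : 2 * (F.card + 2 * (wlt j g).card + (Bad τ g).card * (wlt j g).card) < Fintype.card V) :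
    ∃ y, Far τ g i a y ∧ y ∉ F ∧ τ i y ∉ F := by
  obtain ⟨K, hK⟩ : ∃ K : Finset V, K = F ∪ (wlt j g).image (fun w => go τ w a) ∪
      (wlt j g).image (fun w => go τ w (τ i a)) ∪
      (Bad τ g ×ˢ wlt j g).image (fun x => go τ x.2 x.1.1) := ⟨_, rfl⟩
  have hc : K.card ≤ F.card + 2 * (wlt j g).card + (Bad τ g).card * (wlt j g).card := by
    rw [hK]
    refine (Finset.card_union_le _ _).trans (add_le_add ((Finset.card_union_le _ _).trans ?_)
      (Finset.card_image_le.trans (Finset.card_product _ _).le))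
    have h1 := Finset.card_union_le F ((wlt j g).image (fun w => go τ w a))
    have h2 := Finset.card_image_le (s := wlt j g) (f := fun w => go τ w a)
    have h3 := Finset.card_image_le (s := wlt j g) (f := fun w => go τ w (τ i a))
    omega
  have hlt : (K ∪ K.image (fun x => (τ i)⁻¹ x)).card < (Finset.univ : Finset V).card := by
    have h1 := Finset.card_union_le K (K.image (fun x => (τ i)⁻¹ x))
    have h2 := Finset.card_image_le (s := K) (f := fun x => (τ i)⁻¹ x)
    rw [Finset.card_univ]; omega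
  obtain ⟨y, -, hy⟩ := Finset.exists_mem_notMem_of_card_lt_card hlt
  have hq : ∀ q, q = y ∨ q = τ i y → q ∉ K := by
    rintro q (rfl | rfl) hq
    · exact hy (Finset.mem_union_left _ hq)
    · exact hy (Finset.mem_union_right _ (Finset.mem_image.2 ⟨_, hq, by simp⟩))
  have h1 : ∀ w : List (Lt j), w.length < g → ∀ p, p = a ∨ p = τ i a → ∀ q, q = y ∨ q = τ i y →
      go τ w p ≠ q := by
    intro w hw p hp q hq' e
    apply hq q hq'
    rw [hK]
    simp only [Finset.mem_union, Finset.mem_image, mem_wlt]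
    rcases hp with rfl | rfl
    · exact Or.inl (Or.inl (Or.inr ⟨w, hw, e⟩))
    · exact Or.inl (Or.inr ⟨w, hw, e⟩)
  refine ⟨y, ⟨fun w hw p hp q hq' => ⟨h1 w hw p hp q hq', fun e => ?_⟩, ?_⟩,
    fun hF => hq y (Or.inl rfl) ?_, fun hF => hq _ (Or.inr rfl) ?_⟩
  · exact h1 (FreeGroup.invRev w) (by simpa using hw) p hp q hq' (by rw [← e, go_invRev])
  · intro w hr hne hw q hq' e
    obtain ⟨w', u', v', h2, h3, h4, h5, h6⟩ := exists_cr τ _ w q le_rfl hr hne e
    apply hq q hq'
    rw [hK]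
    refine Finset.mem_union_right _ (Finset.mem_image.2 ⟨((v', u'), w'), ?_, h5⟩)
    exact Finset.mem_product.2 ⟨mem_Bad.2 ⟨by omega, h2, h3, h4⟩, mem_wlt.2 (by simp; omega)⟩
  · rw [hK]; simp [hF]
  · rw [hK]; simp [hF]

lemma bad_lt {τ : Fin j → Equiv.Perm V} {g : ℕ} {i : Fin j} {a y : V} (hF : Far τ g i a y)
    {r : List (Lt j)} {l : Lt j} {v : V} (hb : (v, r ++ [l]) ∈ Bad τ g) (hs : Sp τ i a y l v) :
    (Bad (sw τ i a y) g).card < (Bad τ g).card := by
  refine Finset.card_lt_card ⟨?_, fun hsub => ?_⟩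
  · rintro ⟨v', u⟩ h
    obtain ⟨h1, h2, h3, h4⟩ := mem_Bad.1 h
    have h5 := ns_of_closed hF h2 h1 h4
    refine mem_Bad.2 ⟨h1, h2, h3, ?_⟩
    rw [← NS.go_eq (τ := τ) (fun _ _ h => st_sw τ i a y h) h5, h4]
  · obtain ⟨h1, h2, -, h4⟩ := mem_Bad.1 (hsub hb)
    exact (ns_of_closed hF h2 h1 h4).last hs

omit [Fintype V] in
lemma ed_sw (τ : Fin j → Equiv.Perm V) (i : Fin j) (a y : V) (S T : Finset V) :
    ed (sw τ i a y) S T ≤ ed τ S T + (if y ∈ S then 1 else 0) + (if τ i y ∈ T then 1 else 0) := by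
  unfold ed
  rw [← Finset.add_sum_erase _ _ (Finset.mem_univ i),
    ← Finset.add_sum_erase _ (fun k => (S.filter fun v => τ k v ∈ T).card) (Finset.mem_univ i)]
  have h1 : ∑ k ∈ Finset.univ.erase i, (S.filter fun v => sw τ i a y k v ∈ T).card =
      ∑ k ∈ Finset.univ.erase i, (S.filter fun v => τ k v ∈ T).card :=
    Finset.sum_congr rfl fun k hk => by rw [sw_ne τ i a y (Finset.ne_of_mem_erase hk)]
  have h2 : (S.filter fun v => sw τ i a y i v ∈ T) ⊆ (S.filter fun v => τ i v ∈ T) ∪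
      (if y ∈ S then {y} else ∅) ∪ (if τ i y ∈ T then {a} else ∅) := by
    intro v hv
    rw [Finset.mem_filter, sw_self] at hv
    simp only [Finset.mem_union, Finset.mem_filter]
    by_cases hy : v = y
    · subst hy; simp [hv.1]
    by_cases ha : v = a
    · subst ha
      rw [Equiv.swap_apply_left] at hv
      simp [hv.2]
    rw [Equiv.swap_apply_of_ne_of_ne (fun e => ha ((τ i).injective e))
      (fun e => hy ((τ i).injective e))] at hv
    exact Or.inl (Or.inl hv)
  have h3 := (Finset.card_le_card h2).trans ((Finset.card_union_le _ _).trans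
    (add_le_add (Finset.card_union_le _ _) le_rfl))
  have h4 : (if y ∈ S then ({y} : Finset V) else ∅).card = if y ∈ S then 1 else 0 := by
    split_ifs <;> simp
  have h5 : (if τ i y ∈ T then ({a} : Finset V) else ∅).card = if τ i y ∈ T then 1 else 0 := by
    split_ifs <;> simp
  rw [h4, h5] at h3
  omega

omit [Fintype V] in
lemma sdiff_drop {S F F' : Finset V} {y : V} (hy : y ∉ F) (hy' : y ∈ F') (hF : F ⊆ F') :
    (S \ F').card + (if y ∈ S then 1 else 0) ≤ (S \ F).card := by
  split_ifs with h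
  · refine Finset.card_lt_card ⟨Finset.sdiff_subset_sdiff subset_rfl hF, fun hs => ?_⟩
    exact (Finset.mem_sdiff.1 (hs (Finset.mem_sdiff.2 ⟨h, hy⟩))).2 hy'
  · exact Finset.card_le_card (Finset.sdiff_subset_sdiff subset_rfl hF)

lemma main (g n : ℕ) : ∀ (τ : Fin j → Equiv.Perm V) (F : Finset V), (Bad τ g).card ≤ n →
    2 * (F.card + 2 * n + 2 * (wlt j g).card + n * (wlt j g).card) < Fintype.card V →
    ∃ τ' : Fin j → Equiv.Perm V, Girth τ' g ∧
      ∀ S T : Finset V, ed τ' S T ≤ ed τ S T + (S \ F).card + (T \ F).card := by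
  have base : ∀ (τ : Fin j → Equiv.Perm V), Bad τ g = ∅ → Girth τ g := by
    intro τ h u hr hne hl v e
    obtain ⟨w', u', v', h2, h3, h4, -, h6⟩ := exists_cr τ _ u v le_rfl hr hne e
    have : (v', u') ∈ Bad τ g := mem_Bad.2 ⟨by omega, h2, h3, h4⟩
    simp [h] at this
  induction n with
  | zero =>
    intro τ F h _
    exact ⟨τ, base τ (Finset.card_eq_zero.1 (by omega)), fun S T => by omega⟩
  | succ n ih =>
    intro τ F h hN
    rcases (Bad τ g).eq_empty_or_nonempty with he | ⟨⟨v, u⟩, hb⟩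
    · exact ⟨τ, base τ he, fun S T => by omega⟩
    rcases List.eq_nil_or_concat u with rfl | ⟨r, ⟨i, b⟩, rfl⟩
    · exact absurd rfl (mem_Bad.1 hb).2.2.1
    rw [List.concat_eq_append] at hb
    have hm := Nat.mul_le_mul_right (wlt j g).card h
    obtain ⟨y, hF, hy, hz⟩ := exists_far τ g i (if b then v else (τ i)⁻¹ v) F (by omega)
    have hlt := bad_lt hF hb (by cases b <;> simp [Sp])
    have hc : (insert y (insert (τ i y) F)).card ≤ F.card + 2 :=
      (Finset.card_insert_le _ _).trans (by have := Finset.card_insert_le (τ i y) F; omega)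
    rw [add_mul n 1, one_mul] at hN
    obtain ⟨τ', hg, hτ'⟩ := ih (sw τ i (if b then v else (τ i)⁻¹ v) y)
      (insert y (insert (τ i y) F)) (by omega) (by omega)
    refine ⟨τ', hg, fun S T => ?_⟩
    have hsub : F ⊆ insert y (insert (τ i y) F) := fun x hx => by simp [hx]
    have h1 := hτ' S T
    have h2 := ed_sw τ i (if b then v else (τ i)⁻¹ v) y S T
    have h3 := sdiff_drop (S := S) hy (by simp) hsub
    have h4 := sdiff_drop (S := T) hz (by simp) hsub
    omega

end Sw

theorem pSwitch : StSwitch := by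
  intro j g V _ τ h
  have h1 : (Sw.Bad τ g).card ≤ (Sh τ g).card := Finset.card_filter_le _ _
  obtain ⟨τ', hg, hτ'⟩ := Sw.main g (Sh τ g).card τ ∅ h1 (by simp; nlinarith)
  refine ⟨τ', hg, fun S T => ?_⟩
  have := hτ' S T
  simp only [Finset.sdiff_empty] at this
  omega

end Pool.Agent.P.MP_9167e9_an.Core
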