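import Pool.Agent.P.MP_9167e9_an.Core.Exp
import Pool.Agent.P.MP_9167e9_an.Core.Short
import Pool.Agent.P.MP_9167e9_an.Core.Switch
import Pool.Agent.P.MP_9167e9_an.Core.Cheeger
import Pool.Agent.P.MP_9167e9_an.Core.Glue

/-!
CORE: expanders of large girth on exactly `(2j)^(4g)` points.
-/

namespace Pool.Agent.P.MP_9167e9_an

theorem pCore : StCore :=
  Core.Glue.glue Core.pExp Core.pShort Core.pSwitch Core.pCheeger

end Pool.Agent.P.MP_9167e9_an
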