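import Pool.Agent.P.MP_9167e9_an.StW

/-!
CORE: the four steps of the construction of an expander of large girth.
-/

noncomputable section
open scoped Classical

namespace Pool.Agent.P.MP_9167e9_an.Core

/-- The number of directed edges from `S` to `T`. -/
def ed {j : ℕ} {V : Type} (τ : Fin j → Equiv.Perm V) (S T : Finset V) : ℕ :=
  ∑ i, (S.filter fun v => τ i v ∈ T).card

/-- Edge expansion of the bipartite double: `e(S,T) ≤ (a / b) j (|S| + |T|)`. -/
def Xp {j : ℕ} {V : Type} [Fintype V] (τ : Fin j → Equiv.Perm V) (a b : ℕ) : Prop :=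
  ∀ S T : Finset V, S.card + T.card ≤ Fintype.card V →
    b * ed τ S T ≤ a * (j * (S.card + T.card))

/-- All slot words of length less than `g`. -/
def wlt (j g : ℕ) : Finset (List (Lt j)) := (Finset.range g).biUnion (wds j)

/-- The short closed reduced walks, with their base points. -/
def Sh {j : ℕ} {V : Type} [Fintype V] (τ : Fin j → Equiv.Perm V) (g : ℕ) :
    Finset (V × List (Lt j)) :=
  (Finset.univ ×ˢ wlt j g).filter fun p =>
    FreeGroup.IsReduced p.2 ∧ p.2 ≠ [] ∧ go τ p.2 p.1 = p.1

/-- Most tuples of permutations expand. -/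
def StExp : Prop :=
  ∀ (j : ℕ) (V : Type) [Fintype V], 1000 ≤ j →
    2 * (Finset.univ.filter fun τ : Fin j → Equiv.Perm V => ¬ Xp τ 49 100).card <
      Fintype.card (Fin j → Equiv.Perm V)

/-- A reduced word rarely fixes a given point. -/
def StShort : Prop :=
  ∀ (j : ℕ) (V : Type) [Fintype V] (u : List (Lt j)) (v : V), FreeGroup.IsReduced u → u ≠ [] →
    (Finset.univ.filter fun τ : Fin j → Equiv.Perm V => go τ u v = v).card *
        (Fintype.card V - u.length) ≤
      u.length ^ 2 * Fintype.card (Fin j → Equiv.Perm V)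

/-- Short closed walks can be switched away. -/
def StSwitch : Prop :=
  ∀ (j g : ℕ) (V : Type) [Fintype V] (τ : Fin j → Equiv.Perm V),
    20 * ((Sh τ g).card + 1) * ((wlt j g).card + 1) < Fintype.card V →
    ∃ τ' : Fin j → Equiv.Perm V, Girth τ' g ∧
      ∀ S T : Finset V, ed τ' S T ≤ ed τ S T + (S.card + T.card)

/-- Cheeger's inequality on the bipartite double. -/
def StCheeger : Prop :=
  ∀ (j : ℕ) (V : Type) [Fintype V] (τ : Fin j → Equiv.Perm V), 1 ≤ j → Xp τ 491 1000 →
    Gap τ (1 / 10 ^ 8)

end Pool.Agent.P.MP_9167e9_an.Core
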