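import Pool.Agent.P.MP_9167e9_an.Core.St

/-!
CORE, switching: exchanging the targets of two far apart edges creates no short closed walk.
-/

noncomputable section
open scoped Classical

namespace Pool.Agent.P.MP_9167e9_an.Core.Sw

open FreeGroup (IsReduced)

variable {j : ℕ} {V : Type}

/-- One step. -/
def st (τ : Fin j → Equiv.Perm V) (l : Lt j) (x : V) : V :=
  if l.2 then τ l.1 x else (τ l.1)⁻¹ x

lemma go_nil (τ : Fin j → Equiv.Perm V) (v : V) : go τ [] v = v := rfl

lemma go_cons (τ : Fin j → Equiv.Perm V) (l : Lt j) (u : List (Lt j)) (v : V) :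
    go τ (l :: u) v = st τ l (go τ u v) := rfl

lemma go_append (τ : Fin j → Equiv.Perm V) (u u' : List (Lt j)) (v : V) :
    go τ (u ++ u') v = go τ u (go τ u' v) := by
  simp [go, List.foldr_append]

lemma st_st (τ : Fin j → Equiv.Perm V) (i : Fin j) (b : Bool) (x : V) :
    st τ (i, !b) (st τ (i, b) x) = x := by
  cases b <;> simp [st]

/-- Exchange the targets of the edges of slot `i` at `a` and at `y`. -/
def sw (τ : Fin j → Equiv.Perm V) (i : Fin j) (a y : V) : Fin j → Equiv.Perm V :=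
  Function.update τ i (Equiv.swap (τ i a) (τ i y) * τ i)

/-- The steps that use one of the two exchanged edges. -/
def Sp (τ : Fin j → Equiv.Perm V) (i : Fin j) (a y : V) (l : Lt j) (p : V) : Prop :=
  (l = (i, true) ∧ (p = a ∨ p = y)) ∨ (l = (i, false) ∧ (p = τ i a ∨ p = τ i y))

section

variable (τ : Fin j → Equiv.Perm V) (i : Fin j) (a y : V)

lemma sw_self (x : V) : sw τ i a y i x = Equiv.swap (τ i a) (τ i y) (τ i x) := by
  simp [sw]

lemma sw_self_inv (x : V) :
    (sw τ i a y i)⁻¹ x = (τ i)⁻¹ (Equiv.swap (τ i a) (τ i y) x) := by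
  simp [sw]

lemma sw_ne {k : Fin j} (h : k ≠ i) : sw τ i a y k = τ k := by
  simp [sw, h]

lemma st_sw {l : Lt j} {p : V} (h : ¬ Sp τ i a y l p) : st (sw τ i a y) l p = st τ l p := by
  obtain ⟨k, b⟩ := l
  by_cases hk : k = i
  · subst hk
    cases b
    · have h1 : p ≠ τ k a := fun e => h (Or.inr ⟨rfl, Or.inl e⟩)
      have h2 : p ≠ τ k y := fun e => h (Or.inr ⟨rfl, Or.inr e⟩)
      simp only [st, Bool.false_eq_true, if_false]
      rw [sw_self_inv, Equiv.swap_apply_of_ne_of_ne h1 h2]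
    · have h1 : τ k p ≠ τ k a := fun e => h (Or.inl ⟨rfl, Or.inl ((τ k).injective e)⟩)
      have h2 : τ k p ≠ τ k y := fun e => h (Or.inl ⟨rfl, Or.inr ((τ k).injective e)⟩)
      simp only [st, if_true]
      rw [sw_self, Equiv.swap_apply_of_ne_of_ne h1 h2]
  · simp only [st, sw_ne τ i a y hk]

lemma st_sw_a : st (sw τ i a y) (i, true) a = τ i y := by
  simp [st, sw_self]

lemma st_sw_y : st (sw τ i a y) (i, true) y = τ i a := by
  simp [st, sw_self]

lemma st_sw_c : st (sw τ i a y) (i, false) (τ i a) = y := by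
  simp only [st, Bool.false_eq_true, if_false]
  rw [sw_self_inv]; simp

lemma st_sw_z : st (sw τ i a y) (i, false) (τ i y) = a := by
  simp only [st, Bool.false_eq_true, if_false]
  rw [sw_self_inv]; simp

end

/-- No step of the walk is special. -/
def NS (ρ : Fin j → Equiv.Perm V) (P : Lt j → V → Prop) : List (Lt j) → V → Prop
  | [], _ => True
  | l :: u, v => NS ρ P u v ∧ ¬ P l (go ρ u v)

lemma NS.go_eq {ρ τ : Fin j → Equiv.Perm V} {P : Lt j → V → Prop}
    (hP : ∀ l p, ¬ P l p → st ρ l p = st τ l p) {u : List (Lt j)} {v : V} (h : NS ρ P u v) :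
    go ρ u v = go τ u v := by
  induction u with
  | nil => rfl
  | cons l u ih => rw [go_cons, go_cons, hP _ _ h.2, ih h.1]

lemma first {ρ : Fin j → Equiv.Perm V} {P : Lt j → V → Prop} {u : List (Lt j)} {v : V}
    (h : ¬ NS ρ P u v) :
    ∃ w2 l w1, u = w2 ++ l :: w1 ∧ NS ρ P w1 v ∧ P l (go ρ w1 v) := by
  induction u with
  | nil => exact absurd trivial h
  | cons l u ih =>
    by_cases hu : NS ρ P u v
    · refine ⟨[], l, u, rfl, hu, ?_⟩
      by_contra hn
      exact h ⟨hu, hn⟩
    · obtain ⟨w2, l', w1, rfl, h1, h2⟩ := ih hu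
      exact ⟨l :: w2, l', w1, rfl, h1, h2⟩

lemma NS.last {ρ : Fin j → Equiv.Perm V} {P : Lt j → V → Prop} {u : List (Lt j)} {l : Lt j}
    {v : V} (h : NS ρ P (u ++ [l]) v) : ¬ P l v := by
  induction u with
  | nil => exact h.2
  | cons l' u ih => exact ih h.1

/-- The edge at `y` is far from the edge at `a` and from all short closed walks. -/
structure Far (τ : Fin j → Equiv.Perm V) (g : ℕ) (i : Fin j) (a y : V) : Prop where
  h1 : ∀ w : List (Lt j), w.length < g → ∀ p, p = a ∨ p = τ i a → ∀ q, q = y ∨ q = τ i y →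
    go τ w p ≠ q ∧ go τ w q ≠ p
  h2 : ∀ w : List (Lt j), IsReduced w → w ≠ [] → w.length < g → ∀ q, q = y ∨ q = τ i y →
    go τ w q ≠ q

lemma red_mid {A : Type} {u w : List (A × Bool)} (h : IsReduced u)
    (e : ∃ x z, x ++ w ++ z = u) : IsReduced w := by
  obtain ⟨x, z, rfl⟩ := e
  unfold FreeGroup.IsReduced at *
  exact h.left_of_append.right_of_append

lemma not_red {A : Type} (x : List (A × Bool)) (i : A) (b : Bool) :
    ¬ IsReduced (x ++ [(i, !b), (i, b)]) := by
  intro h
  have h1 : IsReduced [(i, !b), (i, b)] := red_mid h ⟨x, [], by simp⟩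
  rw [FreeGroup.isReduced_cons_cons] at h1
  have := h1.1 rfl
  cases b <;> simp at this

variable {τ : Fin j → Equiv.Perm V} {g : ℕ} {i : Fin j} {a y : V}

/-- A short closed walk cannot start with a new edge leaving the side of `a`. -/
lemma sideA (hF : Far τ g i a y) {r : List (Lt j)} {l : Lt j} {p : V}
    (hr : IsReduced (r ++ [l])) (hl : (r ++ [l]).length < g)
    (hc : go (sw τ i a y) (r ++ [l]) p = p)
    (hp : (l = (i, true) ∧ p = a) ∨ (l = (i, false) ∧ p = τ i a)) : False := by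
  have hl' : r.length + 1 < g := by simpa using hl
  have hpX : p = a ∨ p = τ i a := hp.imp And.right And.right
  obtain ⟨q, hq⟩ : ∃ q, q = st (sw τ i a y) l p := ⟨_, rfl⟩
  have hc' : go (sw τ i a y) r q = p := by rw [hq]; rwa [go_append] at hc
  have hqY : (l = (i, true) ∧ q = τ i y) ∨ (l = (i, false) ∧ q = y) := by
    rcases hp with ⟨rfl, rfl⟩ | ⟨rfl, rfl⟩
    · exact Or.inl ⟨rfl, by rw [hq, st_sw_a]⟩
    · exact Or.inr ⟨rfl, by rw [hq, st_sw_c]⟩
  have hqY' : q = y ∨ q = τ i y := (hqY.imp And.right And.right).symm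
  have hE := fun {u : List (Lt j)} {v : V} (h : NS (sw τ i a y) (Sp τ i a y) u v) =>
    NS.go_eq (τ := τ) (fun _ _ h => st_sw τ i a y h) h
  by_cases hn : NS (sw τ i a y) (Sp τ i a y) r q
  · exact (hF.h1 r (by omega) p hpX q hqY').2 (by rw [← hE hn, hc'])
  obtain ⟨r2, l', r1, rfl, h1, h2⟩ := first hn
  rw [hE h1] at h2
  have hl1 : r1.length + 1 < g := by simp at hl'; omega
  have hX : ∀ x, x = a ∨ x = τ i a → go τ r1 q ≠ x := fun x hx =>
    (hF.h1 r1 (by omega) x hx q hqY').2
  have hr1 : IsReduced (r1 ++ [l]) := red_mid hr ⟨r2 ++ [l'], [], by simp⟩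
  have hr0 : IsReduced r1 := red_mid hr1 ⟨[], [l], by simp⟩
  have hnil : go τ r1 q = q → r1 = [] := fun h => by
    by_contra hne
    exact hF.h2 r1 hr0 hne (by omega) q hqY' h
  rcases hqY with ⟨rfl, rfl⟩ | ⟨rfl, rfl⟩
  · rcases h2 with ⟨rfl, h2 | h2⟩ | ⟨rfl, h2 | h2⟩
    · exact hX _ (Or.inl rfl) h2
    · refine hF.h2 (r1 ++ [(i, true)]) hr1 (by simp) (by simpa using hl1) y (Or.inl rfl) ?_
      rw [go_append]; exact h2
    · exact hX _ (Or.inr rfl) h2
    · obtain rfl := hnil h2
      exact not_red r2 i true (by simpa using hr)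
  · rcases h2 with ⟨rfl, h2 | h2⟩ | ⟨rfl, h2 | h2⟩
    · exact hX _ (Or.inl rfl) h2
    · obtain rfl := hnil h2
      exact not_red r2 i false (by simpa using hr)
    · exact hX _ (Or.inr rfl) h2
    · refine hF.h2 (r1 ++ [(i, false)]) hr1 (by simp) (by simpa using hl1) (τ i q) (Or.inr rfl) ?_
      rw [go_append]
      have : go τ [(i, false)] (τ i q) = q := by simp [go]
      rw [this]; exact h2

/-- Cyclically reduced words. -/
def CR {A : Type} (u : List (A × Bool)) : Prop := IsReduced (u ++ u)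

lemma CR.red {A : Type} {u : List (A × Bool)} (h : CR u) : IsReduced u :=
  red_mid h ⟨[], u, by simp⟩

lemma CR.rot {A : Type} {x w : List (A × Bool)} (h : CR (x ++ w)) : CR (w ++ x) := by
  by_cases hw : w = []
  · subst hw; simpa using h
  have h1 : IsReduced (w ++ x ++ w) := red_mid h ⟨x, [], by simp⟩
  have h2 : IsReduced (w ++ x) := red_mid h ⟨x, w, by simp⟩
  have := h1.append_overlap h2 hw
  simpa [CR, List.append_assoc] using this

lemma closed_rot (ρ : Fin j → Equiv.Perm V) {x w : List (Lt j)} {v : V}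
    (h : go ρ (x ++ w) v = v) : go ρ (w ++ x) (go ρ w v) = go ρ w v := by
  rw [go_append, ← go_append ρ x w, h]

/-- A short closed cyclically reduced walk cannot start with a new edge. -/
lemma sideB (hF : Far τ g i a y) {r : List (Lt j)} {l : Lt j} {p : V}
    (hr : CR (r ++ [l])) (hl : (r ++ [l]).length < g)
    (hc : go (sw τ i a y) (r ++ [l]) p = p) (hp : Sp τ i a y l p) : False := by
  have hY : (l = (i, true) ∧ p = y) ∨ (l = (i, false) ∧ p = τ i y) := by
    rcases hp with ⟨h, h' | h'⟩ | ⟨h, h' | h'⟩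
    · exact (sideA hF hr.red hl hc (Or.inl ⟨h, h'⟩)).elim
    · exact Or.inl ⟨h, h'⟩
    · exact (sideA hF hr.red hl hc (Or.inr ⟨h, h'⟩)).elim
    · exact Or.inr ⟨h, h'⟩
  have hl' : r.length + 1 < g := by simpa using hl
  have hpY : p = y ∨ p = τ i y := hY.imp And.right And.right
  obtain ⟨q, hq⟩ : ∃ q, q = st (sw τ i a y) l p := ⟨_, rfl⟩
  have hc' : go (sw τ i a y) r q = p := by rw [hq]; rwa [go_append] at hc
  have hqX : q = a ∨ q = τ i a := by
    rcases hY with ⟨rfl, rfl⟩ | ⟨rfl, rfl⟩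
    · exact Or.inr (by rw [hq, st_sw_y])
    · exact Or.inl (by rw [hq, st_sw_z])
  have hE := fun {u : List (Lt j)} {v : V} (h : NS (sw τ i a y) (Sp τ i a y) u v) =>
    NS.go_eq (τ := τ) (fun _ _ h => st_sw τ i a y h) h
  by_cases hn : NS (sw τ i a y) (Sp τ i a y) r q
  · exact (hF.h1 r (by omega) q hqX p hpY).1 (by rw [← hE hn, hc'])
  obtain ⟨r2, l', r1, rfl, h1, h2⟩ := first hn
  have hl1 : r1.length < g := by simp at hl'; omega
  have hN : ∀ x, x = y ∨ x = τ i y → go (sw τ i a y) r1 q ≠ x := fun x hx => by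
    rw [hE h1]; exact (hF.h1 r1 hl1 q hqX x hx).1
  have e : r2 ++ l' :: r1 ++ [l] = (r2 ++ [l']) ++ (r1 ++ [l]) := by simp
  have e' : r1 ++ [l] ++ (r2 ++ [l']) = (r1 ++ [l] ++ r2) ++ [l'] := by simp
  rw [e] at hr hc
  have hr' := hr.rot
  have hc2 := closed_rot _ hc
  have e2 : go (sw τ i a y) (r1 ++ [l]) p = go (sw τ i a y) r1 q := by rw [go_append, hq]; rfl
  rw [e2, e'] at hc2
  rw [e'] at hr'
  refine sideA hF hr'.red (by simp at hl' ⊢; omega) hc2 ?_
  rcases h2 with ⟨h, h' | h'⟩ | ⟨h, h' | h'⟩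
  · exact Or.inl ⟨h, h'⟩
  · exact (hN _ (Or.inl rfl) h').elim
  · exact Or.inr ⟨h, h'⟩
  · exact (hN _ (Or.inr rfl) h').elim

/-- Short closed cyclically reduced walks after the switch avoid the new edges. -/
lemma ns_of_closed (hF : Far τ g i a y) {u : List (Lt j)} {v : V} (hr : CR u)
    (hl : u.length < g) (hc : go (sw τ i a y) u v = v) :
    NS (sw τ i a y) (Sp τ i a y) u v := by
  by_contra hn
  obtain ⟨w2, l, w1, rfl, -, h2⟩ := first hn
  have e : w2 ++ l :: w1 = (w2 ++ [l]) ++ w1 := by simp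
  have e' : w1 ++ (w2 ++ [l]) = (w1 ++ w2) ++ [l] := by simp
  rw [e] at hr hc
  have hr' := hr.rot
  have hc2 := closed_rot _ hc
  rw [e'] at hr' hc2
  exact sideB hF hr' (by simp at hl ⊢; omega) hc2 h2

/-- A closed reduced walk contains a closed cyclically reduced walk. -/
lemma exists_cr (τ : Fin j → Equiv.Perm V) (n : ℕ) : ∀ (u : List (Lt j)) (v : V),
    u.length ≤ n → IsReduced u → u ≠ [] → go τ u v = v →
    ∃ w u' v', CR u' ∧ u' ≠ [] ∧ go τ u' v' = v' ∧ go τ w v' = v ∧
      w.length + u'.length ≤ u.length := by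
  induction n with
  | zero => intro u v h _ hne _; exact absurd (List.length_eq_zero_iff.1 (by omega)) hne
  | succ n ih =>
    intro u v hn hr hne hc
    by_cases hcr : CR u
    · exact ⟨[], u, v, hcr, hne, hc, rfl, by simp⟩
    obtain ⟨l, u1, rfl⟩ := List.exists_cons_of_ne_nil hne
    rcases List.eq_nil_or_concat u1 with rfl | ⟨m, l2, rfl⟩
    · exact absurd (by simp [CR, FreeGroup.isReduced_cons_cons]) hcr
    rw [List.concat_eq_append] at *
    have hl2 : l2 = (l.1, !l.2) := by
      by_contra hx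
      apply hcr
      have h1 : IsReduced ([l2] ++ [l]) := by
        obtain ⟨k, b⟩ := l
        obtain ⟨k2, b2⟩ := l2
        simp only [List.cons_append, List.nil_append, FreeGroup.isReduced_cons_cons,
          FreeGroup.IsReduced.singleton, and_true]
        rintro rfl
        cases b <;> cases b2 <;> simp_all
      have h2 : IsReduced ((l :: m) ++ [l2] ++ [l]) :=
        FreeGroup.IsReduced.append_overlap (by simpa using hr) h1 (by simp)
      have h3 := FreeGroup.IsReduced.append_overlap (L₁ := l :: m ++ [l2]) (L₂ := [l])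
        (L₃ := m ++ [l2]) h2 (by simpa using hr) (by simp)
      simpa [CR] using h3
    obtain ⟨k, b⟩ := l
    subst hl2
    have hm : m ≠ [] := by
      rintro rfl
      exact not_red [] k (!b) (by simp at hr)
    have hc1 : go τ m (st τ (k, !b) v) = st τ (k, !b) v := by
      have : st τ (k, b) (go τ m (st τ (k, !b) v)) = v := by
        rw [go_cons, go_append] at hc; exact hc
      conv_rhs => rw [← this, st_st]
    obtain ⟨w, u', v', h1, h2, h3, h4, h5⟩ := ih m _ (by simp at hn; omega)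
      (red_mid hr ⟨[(k, b)], [(k, !b)], by simp⟩) hm hc1
    refine ⟨(k, b) :: w, u', v', h1, h2, h3, ?_, by simp; omega⟩
    rw [go_cons, h4]
    simpa using st_st τ k (!b) v

end Pool.Agent.P.MP_9167e9_an.Core.Sw
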